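import Mathlib
import Pool.Agent.helper68.SF.SpecS

/-! Module `GJB` of project SF (MP_d52931_gt), block ss: the contribution of a node. -/

set_option autoImplicit false

namespace SF

open Pool.Agent.helper72.Sq MeasureTheory Set

theorem GJB_aux {C B c l m m' : ℝ} {g : ℝ → ℝ} (hC : 0 < C) (hB : 0 ≤ B) (hc : 0 < c)
    (h : ∀ l l' : ℝ, 0 < l → 0 < l' → ∀ m : ℝ, 0 < m → m ≤ l' →
      |jj g l m - jj g l l'| ≤ C * B * (1 / l + 1 / m) * (1 / m) * (l' - m))
    (hl : c ≤ l) (hm : c ≤ m) (hm' : c ≤ m') :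
    |jj g l m - jj g l m'| ≤ C * B * (2 / c ^ 2) * |m' - m| := by
  have key : ∀ a b : ℝ, c ≤ a → a ≤ b →
      |jj g l a - jj g l b| ≤ C * B * (2 / c ^ 2) * (b - a) := by
    intro a b ha hab
    have hl0 : 0 < l := lt_of_lt_of_le hc hl
    have ha0 : 0 < a := lt_of_lt_of_le hc ha
    have h1 := h l b hl0 (lt_of_lt_of_le ha0 hab) a ha0 hab
    refine h1.trans ?_
    have e1 : 1 / l ≤ 1 / c := one_div_le_one_div_of_le hc hl
    have e2 : 1 / a ≤ 1 / c := one_div_le_one_div_of_le hc ha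
    have e3 : 0 < 1 / l := by positivity
    have e4 : 0 < 1 / a := by positivity
    have e5 : (1 / l + 1 / a) * (1 / a) ≤ (1 / c + 1 / c) * (1 / c) :=
      mul_le_mul (by linarith) e2 e4.le (by linarith)
    have e6 : (1 / c + 1 / c) * (1 / c) = 2 / c ^ 2 := by
      field_simp
      ring
    rw [e6] at e5
    have hCB : 0 ≤ C * B := mul_nonneg hC.le hB
    have e7 : C * B * (1 / l + 1 / a) * (1 / a) * (b - a) =
        C * B * ((1 / l + 1 / a) * (1 / a)) * (b - a) := by ring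
    rw [e7]
    exact mul_le_mul_of_nonneg_right (mul_le_mul_of_nonneg_left e5 hCB) (by linarith)
  rcases le_total m m' with h1 | h1
  · rw [abs_of_nonneg (sub_nonneg.2 h1)]
    exact key m m' hm h1
  · rw [abs_sub_comm (jj g l m), abs_sub_comm m' m, abs_of_nonneg (sub_nonneg.2 h1)]
    exact key m' m hm' h1

theorem GJB (hJ5 : J5_stmt) (hJB : JB_stmt) (hLB : LB_stmt) (hGAP : GAP_stmt) : GJB_stmt := by
  intro P hP
  obtain ⟨C, hC, hJB⟩ := hJB
  obtain ⟨c, -, hc, -, hlen, -, -⟩ := hLB P hP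
  obtain ⟨C2, hC2, hgap⟩ := hGAP P hP
  refine ⟨4 * C * C2 / c ^ 2, by positivity, ?_⟩
  intro g B R w hg hB hR
  have hB0 : 0 ≤ B := (abs_nonneg _).trans (hB 0 (by norm_num) 0)
  have hj := hJB g B hg hB
  obtain ⟨h1, h2, h3⟩ := hlen w
  have h4 := hgap w
  set Q := desc w P with hQ
  set l := len Q.1 / R with hl
  set l' := len Q.2.1 / R with hl'
  set m := len Q.2.2 / R with hm
  have hcR : 0 < c / R := by positivity
  have g1 : c / R ≤ l := div_le_div_of_nonneg_right h1 hR.le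
  have g2 : c / R ≤ l' := div_le_div_of_nonneg_right h2 hR.le
  have g3 : c / R ≤ m := div_le_div_of_nonneg_right h3 hR.le
  have hl0 : 0 < l := lt_of_lt_of_le hcR g1
  have hl'0 : 0 < l' := lt_of_lt_of_le hcR g2
  have hm0 : 0 < m := lt_of_lt_of_le hcR g3
  have e0 := hJ5 g hg l l' hl0 hl'0
  have e1 : GJ g R Q = (jj g l m - jj g l (l + l')) - (jj g l' m - jj g l' (l + l')) := by
    have e2 : jj g m l' = -jj g l' m := (hj l' m hl'0 hm0).2.1
    have e3 : jj g (l + l') l' = -jj g l' (l + l') := (hj l' (l + l') hl'0 (by linarith)).2.1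
    show jj g l m + jj g m l' - jj g l l' = _
    rw [e0, e2, e3]
    ring
  have hjb : ∀ l l' : ℝ, 0 < l → 0 < l' → ∀ m : ℝ, 0 < m → m ≤ l' →
      |jj g l m - jj g l l'| ≤ C * B * (1 / l + 1 / m) * (1 / m) * (l' - m) :=
    fun l l' hl hl' => (hj l l' hl hl').2.2
  have f1 := GJB_aux hC hB0 hcR hjb g1 g3 (show c / R ≤ l + l' by linarith)
  have f2 := GJB_aux hC hB0 hcR hjb g2 g3 (show c / R ≤ l + l' by linarith)
  have e4 : |l + l' - m| ≤ C2 * Real.exp (-LL Q) / R := by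
    have e5 : l + l' - m = (LL Q - len Q.2.2) / R := by
      rw [hl, hl', hm, LL]
      ring
    rw [e5, abs_div, abs_of_pos hR]
    exact div_le_div_of_nonneg_right h4 hR.le
  have hK : 0 ≤ C * B * (2 / (c / R) ^ 2) := by positivity
  rw [e1]
  calc |jj g l m - jj g l (l + l') - (jj g l' m - jj g l' (l + l'))|
      ≤ |jj g l m - jj g l (l + l')| + |jj g l' m - jj g l' (l + l')| := abs_sub _ _
    _ ≤ C * B * (2 / (c / R) ^ 2) * |l + l' - m| + C * B * (2 / (c / R) ^ 2) * |l + l' - m| :=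
        add_le_add f1 f2
    _ ≤ C * B * (2 / (c / R) ^ 2) * (C2 * Real.exp (-LL Q) / R) +
        C * B * (2 / (c / R) ^ 2) * (C2 * Real.exp (-LL Q) / R) :=
        add_le_add (mul_le_mul_of_nonneg_left e4 hK) (mul_le_mul_of_nonneg_left e4 hK)
    _ = 4 * C * C2 / c ^ 2 * B * R * Real.exp (-LL Q) := by
        field_simp
        ring

end SF
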